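import Mathlib
import Pool.Agent.H669R3.XPFinal

/-!
Q2: the Diophantine problem for the positive integers with `+` and `x * 2 ^ y` is undecidable,
already for finite systems of equations of the three forms `x = y + z`, `x = y * 2 ^ z`, `x = 1`.
-/

set_option autoImplicit false

namespace Pool.Agent.Results.MP_4f56fb_lc.DiophantineProblem

/-- No algorithm decides, given a finite list of equations, each of one of the forms
`x = y + z`, `x = y * 2 ^ z`, `x = 1` between variables indexed by natural numbers, whether the
system has a solution in positive integers. -/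
theorem result :
    ¬ ComputablePred (fun L : List ((ℕ × ℕ × ℕ) ⊕ (ℕ × ℕ × ℕ) ⊕ ℕ) =>
      ∃ v : ℕ → ℕ, (∀ i, 0 < v i) ∧
        ∀ c ∈ L,
          Sum.elim (fun t : ℕ × ℕ × ℕ => v t.1 = v t.2.1 + v t.2.2)
            (Sum.elim (fun t : ℕ × ℕ × ℕ => v t.1 = v t.2.1 * 2 ^ v t.2.2)
              (fun i : ℕ => v i = 1)) c) := by
  intro h
  apply Pool.Agent.H669R3.XP.system_undecidable
  refine h.of_eq fun L => ?_
  refine exists_congr fun v => and_congr_right fun _ => ?_
  refine forall_congr' fun c => forall_congr' fun _ => ?_
  rcases c with t | t | i <;> exact Iff.rfl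

end Pool.Agent.Results.MP_4f56fb_lc.DiophantineProblem
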